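import Pool.Agent.RCone.BlkI

/-! # Density of the rational order and the growth of fooling sets (MP_a8de0d_lc) -/

namespace Pool.Agent.Results.MP_a8de0d_lc.CoverIndex

open Language RCone

/-- Part 1: if `L₁` is above `L₂`, above Goldstine's language and above a language `P` whose
fooling sets grow faster than those of `L₂`, then some `M` satisfies `L₁ > M > L₂`.
Part 2: the same if `L₂` has index at most `k`, and `L₁` is above `L₂` and above the language of
the nested blocks `a_1^(n_1) ... a_(k+1)^(n_(k+1)) b_(k+1)^(n_(k+1)) ... b_1^(n_1)`.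
Part 3: the same if `L₂` has finite index and `L₁` is above the palindromes of even length.
Parts 4 to 6: the index does not increase under rational transductions and is subadditive under
substitutions; it is `0` for `{a^n b^m : n ≠ m}`, at most `1` for the counter language, and at most
`k` for the language of `k` nested blocks.  Part 7: no language of index at most `k` is above the
language of `k + 1` nested blocks or above the palindromes. -/
theorem result :
    (∀ (X Y W : Type) [Finite X] [Finite Y] [Finite W] (w : ℕ → ℕ) (L₁ : Language X)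
      (L₂ : Language Y) (P : Language W), Narrow w L₂ → Wide w P → Geq L₁ L₂ →
        Geq L₁ goldstine → Geq L₁ P →
        ∃ M : Language (Option (Y ⊕ PC W)), Between L₁ M L₂) ∧
    (∀ (X Y : Type) [Finite X] [Finite Y] (k : ℕ) (L₁ : Language X) (L₂ : Language Y),
      Idx k L₂ → Geq L₁ L₂ → Geq L₁ (nestB (k + 1)) →
        ∃ M : Language (Option (Y ⊕ PC (Fin (k + 1) × Bool))), Between L₁ M L₂) ∧
    (∀ (X Y : Type) [Finite X] [Finite Y] (k : ℕ) (L₁ : Language X) (L₂ : Language Y),
      Idx k L₂ → Geq L₁ L₂ → Geq L₁ palLang →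
        ∃ M : Language (Option (Y ⊕ PC Bool)), Between L₁ M L₂) ∧
    (∀ (X Y : Type) [Finite X] [Finite Y] (k : ℕ) (L : Language X) (M : Language Y),
      Idx k L → Geq L M → Idx k M) ∧
    (∀ (Y W : Type) [Finite Y] [Finite W] (k j : ℕ) (K : Language Y) (f : Y → Language W),
      Idx k K → (∀ y, Idx j (f y)) → Idx (k + j) (substL K f)) ∧
    (Idx 0 neqLang ∧ Idx 1 counterLang ∧ ∀ k, Idx k (nestB k)) ∧
    (∀ (Y : Type) [Finite Y] (k : ℕ) (L : Language Y),
      Idx k L → ¬ Geq L (nestB (k + 1)) ∧ ¬ Geq L palLang) := by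
  refine ⟨?_, ?_, ?_, ?_, ?_, ⟨idx_neq, idx_counter, idx_nestB⟩, ?_⟩
  · intro X Y W _ _ _ w L₁ L₂ P hN hW h hG hP
    exact between_of_wide hN hW hG hP h
  · intro X Y _ _ k L₁ L₂ hI h hP
    exact between_idx hI h hP
  · intro X Y _ _ k L₁ L₂ hI h hP
    exact between_idx_pal hI h hP
  · intro X Y _ _ k L M hI h
    exact hI.of_geq h
  · intro Y W _ _ k j K f hK hf
    exact hK.subst hf
  · intro Y _ k L hI
    exact ⟨not_geq_of_wide (wf_mono k) hI.narrow (wide_nestB k),
      not_geq_of_wide (wf_mono k) hI.narrow (wide_pal k)⟩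

end Pool.Agent.Results.MP_a8de0d_lc.CoverIndex
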