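import Pool.Agent.RCone.FinF

/-! # Density of the rational order above languages with bounded fooling sets (MP_a8de0d_lc) -/

namespace Pool.Agent.Results.MP_a8de0d_lc.FiniteFooling

open Language RCone

/-- Part 1: if the fooling sets of `L₂` are bounded, and `L₁` is above `L₂` and above
`{a^n b^n : n ≥ 0}`, then some `M` satisfies `L₁ > M > L₂`.  Part 2: the same for `L₁` above
Goldstine's language and above a language `P` with fooling sets of every size `s` whose words have
polynomial length in `s`.
Parts 3 to 6: the class of the languages with bounded fooling sets is closed under rational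
transductions, unions, products and stars.  Parts 7 to 10: it contains the regular languages,
`{a^n b^m : n ≠ m}`, `{a^n b^m : n ≥ m}`, Goldstine's language, the languages whose residuals lie
in finitely many chains, and the sets of the words which are not prefixes of one given infinite
word. -/
theorem result :
    (∀ (X Y : Type) [Finite X] [Finite Y] (L₁ : Language X) (L₂ : Language Y),
      FinFool L₂ → Geq L₁ L₂ → Geq L₁ eqLang →
        ∃ M : Language (Option (Y ⊕ PC Bool)), Between L₁ M L₂) ∧
    (∀ (X Y W : Type) [Finite X] [Finite Y] [Finite W] (L₁ : Language X) (L₂ : Language Y)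
      (P : Language W), FinFool L₂ → DenseFool P → Geq L₁ L₂ → Geq L₁ goldstine → Geq L₁ P →
        ∃ M : Language (Option (Y ⊕ PC W)), Between L₁ M L₂) ∧
    (∀ (X Y : Type) [Finite X] [Finite Y] (L : Language X) (M : Language Y),
      FinFool L → Geq L M → FinFool M) ∧
    (∀ (X : Type) (K L : Language X), FinFool K → FinFool L → FinFool (K + L)) ∧
    (∀ (X : Type) (K L : Language X), FinFool K → FinFool L → FinFool (K * L)) ∧
    (∀ (X : Type) (K : Language X), FinFool K → FinFool (KStar.kstar K)) ∧
    (∀ (X : Type) (L : Language X), L.IsRegular → FinFool L) ∧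
    (FinFool neqLang ∧ FinFool geLang ∧ FinFool goldstine) ∧
    (∀ (X : Type) (L : Language X) (k : ℕ) (c : List X → Fin k),
      (∀ u u', c u = c u' →
        (∀ v, u ++ v ∈ L → u' ++ v ∈ L) ∨ (∀ v, u' ++ v ∈ L → u ++ v ∈ L)) → FinFool L) ∧
    (∀ (X : Type) (s : ℕ → X),
      FinFool ({w | ¬ ∃ n, w = (List.range n).map s} : Language X)) := by
  refine ⟨?_, ?_, ?_, ?_, ?_, ?_, ?_,
    ⟨finFool_neq, finFool_ge, finFool_neq.of_geq neq_geq_goldstine⟩, ?_, ?_⟩
  · intro X Y _ _ L₁ L₂ hF h hE
    exact between_finFool hF denseFool_eq (hE.trans (eq_geq_neq.trans neq_geq_goldstine)) hE h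
  · intro X Y W _ _ _ L₁ L₂ P hF hD h hG hP
    exact between_finFool hF hD hG hP h
  · intro X Y _ _ L M hL h
    exact hL.of_geq h
  · exact fun X K L hK hL => hK.add hL
  · exact fun X K L hK hL => hK.mul hL
  · exact fun X K hK => hK.kstar
  · exact fun X L hL => finFool_of_regular hL
  · exact fun X L k c h => finFool_of_chains c h
  · intro X s
    have hpre : ∀ m n, m ≤ n → (List.range m).map s <+: (List.range n).map s := by
      intro m n hmn
      obtain ⟨k, rfl⟩ := Nat.exists_eq_add_of_le hmn
      rw [List.range_add, List.map_append]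
      exact List.prefix_append _ _
    refine finFool_of_coprefix (V := {w | ∃ n, w = (List.range n).map s}) ?_ ?_
    · rintro x y ⟨n, hn⟩
      refine ⟨x.length, ?_⟩
      have h1 : x.length ≤ n := by
        have := congrArg List.length hn
        simp at this
        omega
      have h2 : x <+: (List.range n).map s := ⟨y, hn⟩
      have h3 := hpre _ _ h1
      rcases List.prefix_or_prefix_of_prefix h2 h3 with h | h
      · exact h.eq_of_length (by simp)
      · exact (h.eq_of_length (by simp)).symm
    · rintro x ⟨m, rfl⟩ y ⟨n, rfl⟩
      rcases Nat.le_total m n with h | h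
      · exact Or.inl (hpre _ _ h)
      · exact Or.inr (hpre _ _ h)

end Pool.Agent.Results.MP_a8de0d_lc.FiniteFooling
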