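import Pool.Agent.RCone.AdvA

/-! # Covers in the rational order need approximations with advice (MP_a8de0d_lc) -/

namespace Pool.Agent.Results.MP_a8de0d_lc.NestedPalindromes

open Language RCone

/-- Part 1: if `L₁ ≥ L₂`, `L₂` is not empty, and `L₁` is above Goldstine's language and above `P`,
then some `M` satisfies `L₁ > M > L₂`, or `L₂` approximates `P` with advice.
Part 2: the second case does not occur if `L₂` has index `k` and `P` is the set of the nested
palindromes of depth `k + 1`; so there is a language strictly between. -/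
theorem result :
    (∀ (X Y W : Type) [Finite X] [Finite Y] [Finite W] (L₁ : Language X) (L₂ : Language Y)
      (P : Language W), Geq L₁ L₂ → (∃ w, w ∈ L₂) → Geq L₁ goldstine → Geq L₁ P →
        (∃ M : Language (Option (Y ⊕ PC W)), Between L₁ M L₂) ∨ AdvApprox L₂ P) ∧
    (∀ (X Y : Type) [Finite X] [Finite Y] (k : ℕ) (L₁ : Language X) (L₂ : Language Y),
      RankFam k Y L₂ → (∃ w, w ∈ L₂) → Geq L₁ L₂ → Geq L₁ (nestPal Bool (k + 1)) →
        ¬ AdvApprox L₂ (nestPal Bool (k + 1)) ∧
        ∃ M : Language (Option (Y ⊕ PC (Bool ⊕ Bool))), Between L₁ M L₂) := by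
  refine ⟨?_, ?_⟩
  · rintro X Y W _ _ _ L₁ L₂ P h ⟨w, hw⟩ hG hP
    exact between_or_adv hG hP h hw
  · rintro X Y _ _ k L₁ L₂ hI ⟨w, hw⟩ h hP
    have hna : ¬ AdvApprox L₂ (nestPal Bool (k + 1)) := fun ha =>
      not_quadApprox (GrD_mono k) hI.polyBy (hard_nest k) ha.quad
    refine ⟨hna, ?_⟩
    rcases between_or_adv (hP.trans ((nest_geq_pal k).trans pal_geq_goldstine)) hP h hw with h1 | h1
    · exact h1
    · exact absurd h1 hna

end Pool.Agent.Results.MP_a8de0d_lc.NestedPalindromes
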