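import Pool.Agent.RCone.Dens

/-! # Density of the rational order above pumpable languages (MP_a8de0d_lc) -/

namespace Pool.Agent.Results.MP_a8de0d_lc.PumpableLowerEnd

open Language RCone

/-- Part 1: if `L₁ ≥ L₂`, `L₁` is above Goldstine's language and `L₂` is pumpable, then some `M`
satisfies `L₁ > M > L₂`.
Part 2: for every pumpable `N` the periodic sets of natural numbers embed between `N` and the join
of `N` with Goldstine's language, and every pair lying around two of these languages has a third
language strictly between.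
Parts 3 to 8: pumpable languages.  Part 9: `{a^n b^m : n ≠ m}` is above Goldstine's language. -/
theorem result :
    (∀ (X Y : Type) [Finite X] [Finite Y] (L₁ : Language X) (L₂ : Language Y),
      Pumpable L₂ → Geq L₁ L₂ → Geq L₁ goldstine →
        ∃ M : Language (Option (Y ⊕ Sym)), Between L₁ M L₂) ∧
    (∃ H : Set ℕ → Language Sym, H ∅ = ⊤ ∧ (∀ A, Periodic A → Geq goldstine (H A)) ∧
      ∀ (X : Type) [Finite X] (N : Language X), Pumpable N →
        (∀ A B, Periodic A → Periodic B →
          (Geq (join N (H B)) (join N (H A)) ↔ A ⊆ B)) ∧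
        ∀ (Y W : Type) [Finite Y] [Finite W] (L₁ : Language Y) (L₂ : Language W)
          (A B : Set ℕ), Periodic A → Periodic B → A ⊆ B → ¬ B ⊆ A →
          Geq L₁ N → Geq L₁ (H B) → Geq (join N (H A)) L₂ →
            ∃ M : Language (Option (X ⊕ Sym)), Between L₁ M L₂) ∧
    (∀ (X : Type) (N : Language X), N.IsRegular → Pumpable N) ∧
    (∀ d, Pumpable (cover d)) ∧
    (∀ d, Pumpable (coverRev d)) ∧
    (∀ (X : Type) (N : Language X) (t : ℕ),
      (∀ x u y : List X, u ≠ [] → x ++ (List.replicate t u).flatten ++ y ∈ N) → Pumpable N) ∧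
    (∀ (X Y : Type) [Finite X] [Finite Y] (N : Language X) (M : Language Y),
      Pumpable N → Geq N M → Pumpable M) ∧
    (∀ (X : Type) (N : Language X),
      (WellQuasiOrdered (fun S T : Set (List X) => completes N S ⊆ completes N T) ∨
        WellQuasiOrdered (fun S T : Set (List X) => completes N T ⊆ completes N S)) →
      Pumpable N) ∧
    Geq neqLang goldstine := by
  refine ⟨?_, ⟨H, H_empty, fun A hA => goldstine_geq_H hA, ?_⟩, ?_, ?_, ?_, ?_, ?_, ?_,
    neq_geq_goldstine⟩
  · intro X Y _ _ L₁ L₂ hL h hG
    exact exists_between_of_pumpable hL h hG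
  · intro X _ N hN
    refine ⟨fun A B hA hB => join_geq_join_iff hN hA hB, ?_⟩
    intro Y W _ _ L₁ L₂ A B hA hB hAB hne h₁ h₁' h₂
    exact exists_between hN h₁ hA hB hAB hne h₁' h₂
  · exact fun X N hN => Or.inl (pumpUp_of_regular hN)
  · exact fun d => Or.inr (pumpDown_cover d)
  · exact fun d => Or.inl (pumpUp_coverRev d)
  · exact fun X N t hN => Or.inl (pumpUp_of_powerFree t hN)
  · intro X Y _ _ N M hN hg
    rcases hN with h | h
    · exact Or.inl (h.of_geq hg)
    · exact Or.inr (h.of_geq hg)
  · intro X N h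
    rcases h with h | h
    · exact Or.inl (pumpUp_of_wqo h)
    · exact Or.inr (pumpDown_of_wqo h)

end Pool.Agent.Results.MP_a8de0d_lc.PumpableLowerEnd
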